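import Pool.Agent.W399.WP.GStm

/-!
# WP-GW: small pieces, grammar induction
-/

set_option autoImplicit false

namespace Pool.Agent.W179.WP399

open Pool.Agent.W399.WP Pool.Agent.H966R2.CF

section lists
variable {A : Type}

theorem split_hash {X Y : List (Option A)} {a b : List A}
    (h : X ++ Y = a.map some ++ none :: b.map some) :
    (∃ a₁ a₂, a = a₁ ++ a₂ ∧ X = a₁.map some ∧ Y = a₂.map some ++ none :: b.map some) ∨
    (∃ b₁ b₂, b = b₁ ++ b₂ ∧ X = a.map some ++ none :: b₁.map some ∧ Y = b₂.map some) := by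
  rw [List.append_eq_append_iff] at h
  rcases h with ⟨a', h1, h2⟩ | ⟨c', h1, h2⟩
  · left
    rw [List.map_eq_append_iff] at h1
    obtain ⟨a₁, a₂, rfl, rfl, rfl⟩ := h1
    exact ⟨a₁, a₂, rfl, rfl, h2⟩
  · cases c' with
    | nil =>
      left
      refine ⟨a, [], by simp, by simpa using h1, by simpa using h2.symm⟩
    | cons x c'' =>
      right
      rw [List.cons_append, List.cons.injEq] at h2
      obtain ⟨rfl, h2⟩ := h2
      rw [List.map_eq_append_iff] at h2
      obtain ⟨b₁, b₂, rfl, rfl, rfl⟩ := h2
      exact ⟨b₁, b₂, rfl, h1, rfl⟩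

theorem some_inj {a b : List A} (h : a.map some = b.map some) : a = b :=
  (List.map_injective_iff.2 (Option.some_injective A)) h

theorem hash_unique {a b a' b' : List A}
    (h : a.map some ++ none :: b.map some = a'.map some ++ none :: b'.map some) :
    a = a' ∧ b = b' := by
  rcases split_hash (X := a.map some) (Y := none :: b.map some) h with
    ⟨a₁, a₂, rfl, h1, h2⟩ | ⟨b₁, b₂, -, h1, -⟩
  · cases a₂ with
    | nil =>
      simp only [List.map_nil, List.nil_append, List.cons.injEq, true_and] at h2
      refine ⟨?_, some_inj h2⟩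
      rw [List.append_nil]
      exact some_inj h1
    | cons x a₂ => simp at h2
  · exfalso
    have : none ∈ a.map some := by rw [h1]; simp
    simp at this

end lists

section
variable {A : Type} {g : ContextFreeGrammar (Option A)} {M : Type} [CancelMonoid M] {φ : A → M}

theorem mem_CG {α : Fm g} {U V : List A} :
    (U, V) ∈ CG g α ↔ D g Set.univ α (U.map some ++ none :: V.reverse.map some) := Iff.rfl

theorem pr_eq (hL : g.language = WPM φ) {U V : List A} (h : (U, V) ∈ CG g (st g)) :
    pr φ U = pr φ V := by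
  have h1 : U.map some ++ none :: V.reverse.map some ∈ g.language := (mem_CG.1 h).derives
  rw [hL] at h1
  obtain ⟨u, v, -, -, h2, h3⟩ := h1
  obtain ⟨rfl, h4⟩ := hash_unique h3
  rw [List.reverse_inj] at h4
  rw [h4]
  exact h2

theorem forms_suffix {α β : Fm g} (h : α ∈ Forms g) (h' : β <:+ α) : β ∈ Forms g := by
  rcases h with h | ⟨r, hr, h⟩
  · exact Or.inl (h'.trans h)
  · exact Or.inr ⟨r, hr, h'.trans h⟩

theorem forms_output {r : ContextFreeRule (Option A) g.NT} (hr : r ∈ g.rules) :
    (r.output : Fm g) ∈ Forms g := Or.inr ⟨r, hr, List.suffix_refl _⟩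

theorem HasCtx.step {α β : Fm g} (h : HasCtx g α) {a v : List A}
    (h' : Step (CG g) α a v β) : HasCtx g β := by
  obtain ⟨a₀, v₀, h0⟩ := h
  exact ⟨_, _, h0.trans h'⟩

/-- the window lemma -/
theorem window {h m : ℕ} (hm : 1 ≤ m) {β : Fm g} {W : List (Option A)}
    (hD : D g Set.univ β W) : ∀ w : List A, W = w.map some → β ∈ Forms g → RU g φ β →
    ∀ t s : List A, w.reverse = t ++ s → m ≤ s.length →
    (∀ p q r : List A, s = p ++ q ++ r → pr φ q ∈ EG g φ → q.length ≤ h) →
    ∃ t₁ t₂ s₂ s₁ : List A, t = t₁ ++ t₂ ∧ s = s₂ ++ s₁ ∧ pr φ (t₂ ++ s₂) ∈ EG g φ ∧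
      m ≤ s₂.length ∧ s₂.length ≤ m + h := by
  induction hD with
  | nil =>
    intro w hw _ _ t s hts hms _
    cases w with
    | nil =>
      simp only [List.reverse_nil, List.nil_eq, List.append_eq_nil_iff] at hts
      rw [hts.2] at hms
      simp at hms
      omega
    | cons x w => simp at hw
  | term x β' w' hβ' ih =>
    intro w hw hF hRU t s hts hms hfac
    by_cases hs : s.length ≤ m + h
    · refine ⟨[], t, s, [], rfl, by simp, ?_, hms, hs⟩
      rw [← hts]
      exact ⟨_, hF, Or.inr ⟨hRU, w, by
        show D g Set.univ _ (w.map some)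
        rw [← hw]; exact D.term _ _ _ hβ', rfl⟩⟩
    · rw [not_le] at hs
      cases w with
      | nil => simp at hw
      | cons x0 w0 =>
        rw [List.map_cons, List.cons.injEq] at hw
        obtain ⟨rfl, rfl⟩ := hw
        rw [List.reverse_cons] at hts
        rcases List.eq_nil_or_concat s with rfl | ⟨s', y, rfl⟩
        · simp at hs
        · rw [List.concat_eq_append] at *
          rw [← List.append_assoc, List.append_singleton_inj] at hts
          obtain ⟨h1, rfl⟩ := hts
          rw [List.length_append, List.length_singleton] at hs hms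
          obtain ⟨p, q, r, hpqr⟩ := hRU
          obtain ⟨t₁, t₂, s₂, s₁, e1, e2, e3, e4, e5⟩ := ih w0 rfl
            (forms_suffix hF (List.suffix_cons _ _)) ⟨p, q, φ x0 * r, fun w1 hw1 => by
              rw [hpqr (x0 :: w1) (D.term _ _ _ hw1)]
              simp [mul_assoc]⟩ t s' h1 (by omega) (fun p' q' r' e hq' =>
                hfac p' q' (r' ++ [x0]) (by rw [e]; simp) hq')
          exact ⟨t₁, t₂, s₂, s₁ ++ [x0], e1, by rw [e2, List.append_assoc], e3, e4, e5⟩
  | nonterm r hr hS β' w1' w2' h1 h2 ih1 ih2 =>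
    intro w hw hF hRU t s hts hms hfac
    by_cases hs : s.length ≤ m + h
    · refine ⟨[], t, s, [], rfl, by simp, ?_, hms, hs⟩
      rw [← hts]
      exact ⟨_, hF, Or.inr ⟨hRU, w, by
        show D g Set.univ _ (w.map some)
        rw [← hw]; exact D.nonterm r hr hS _ _ _ h1 h2, rfl⟩⟩
    · rw [not_le] at hs
      obtain ⟨w1, w2, rfl, rfl, rfl⟩ := List.map_eq_append_iff.1 hw.symm
      rw [List.reverse_append] at hts
      obtain ⟨p, q, r₀, hpqr⟩ := hRU
      have hRo : RU g φ r.output := ⟨p, q * pr φ w2.reverse, r₀, fun u hu => by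
        have h3 : Dv g (Symbol.nonterminal r.input :: β') (u ++ w2) := by
          show D g Set.univ _ ((u ++ w2).map some)
          rw [List.map_append]
          exact D.nonterm r hr hS _ _ _ hu h2
        rw [hpqr _ h3]
        simp [mul_assoc]⟩
      rw [List.append_eq_append_iff] at hts
      rcases hts with ⟨s', e1, e2⟩ | ⟨t', e1, e2⟩
      · -- t = w2.reverse ++ s', w1.reverse = s' ++ s
        obtain ⟨t₁, t₂, s₂, s₁, f1, f2, f3, f4, f5⟩ := ih1 w1 rfl (forms_output hr) hRo s' s e2 hms
          hfac
        exact ⟨w2.reverse ++ t₁, t₂, s₂, s₁, by rw [e1, f1, List.append_assoc], f2, f3, f4, f5⟩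
      · -- w2.reverse = t ++ t', s = t' ++ w1.reverse
        have hq : w1.reverse.length ≤ h := hfac t' w1.reverse [] (by rw [e2]; simp)
          ⟨_, forms_output hr, Or.inr ⟨hRo, w1, h1, rfl⟩⟩
        have hlen : s.length = t'.length + w1.reverse.length := by rw [e2, List.length_append]
        obtain ⟨t₁, t₂, s₂, s₁, f1, f2, f3, f4, f5⟩ := ih2 w2 rfl
          (forms_suffix hF (List.suffix_cons _ _)) ⟨p, q, pr φ w1.reverse * r₀, fun u hu => by
            have h3 : Dv g (Symbol.nonterminal r.input :: β') (w1 ++ u) := by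
              show D g Set.univ _ ((w1 ++ u).map some)
              rw [List.map_append]
              exact D.nonterm r hr hS _ _ _ h1 hu
            rw [hpqr _ h3]
            simp [mul_assoc]⟩ t t' e1 (by omega) (fun p' q' r' e hq' =>
              hfac p' q' (r' ++ w1.reverse) (by rw [e2, e]; simp) hq')
        exact ⟨t₁, t₂, s₂, s₁ ++ w1.reverse, f1, by rw [e2, f2, List.append_assoc], f3, f4, f5⟩

theorem main_ind (hL : g.language = WPM φ) {h m : ℕ} (hm : 1 ≤ m) {α : Fm g}
    {W : List (Option A)} (hD : D g Set.univ α W) : ∀ k t s : List A,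
    W = k.map some ++ none :: (t ++ s).reverse.map some → α ∈ Forms g → HasCtx g α →
    (∀ p q r : List A, s = p ++ q ++ r → pr φ q ∈ EG g φ → q.length ≤ h) → m ≤ s.length →
    (∃ y ∈ Forms g, ∃ k₁ k₂ s₂ s₁ : List A, k = k₁ ++ k₂ ∧ s = s₂ ++ s₁ ∧ s₂.length < m ∧
      Step (CG g) α k₁ (t ++ s₂) y ∧ (k₂, s₁) ∈ CG g y) ∨
    (∃ t₁ t₂ s₂ s₁ : List A, t = t₁ ++ t₂ ∧ s = s₂ ++ s₁ ∧ pr φ (t₂ ++ s₂) ∈ EG g φ ∧
      m ≤ s₂.length ∧ s₂.length ≤ m + h) := by
  induction hD with
  | nil =>
    intro k t s hW
    simp at hW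
  | term x α' w' hα' ih =>
    intro k t s hW hF hC hfac hms
    cases k with
    | nil =>
      right
      rw [List.map_nil, List.nil_append, List.cons.injEq] at hW
      obtain ⟨rfl, rfl⟩ := hW
      obtain ⟨a, v, hav⟩ := hC
      refine window hm hα' (t ++ s).reverse rfl (forms_suffix hF (List.suffix_cons _ _))
        ⟨pr φ a, pr φ v, 1, fun w hw => ?_⟩ t s (List.reverse_reverse _) hms hfac
      have h1 : (([] : List A), w.reverse) ∈ CG g (Symbol.terminal none :: α') := by
        rw [mem_CG, List.reverse_reverse]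
        exact D.term _ _ _ hw
      have h2 := pr_eq hL (hav _ _ h1)
      simpa using h2
    | cons x0 k' =>
      rw [List.map_cons, List.cons_append, List.cons.injEq] at hW
      obtain ⟨rfl, hW⟩ := hW
      have hst : Step (CG g) (Symbol.terminal (some x0) :: α') [x0] [] α' := by
        intro U V hUV
        rw [mem_CG] at hUV ⊢
        exact D.term _ _ _ hUV
      rcases ih k' t s hW (forms_suffix hF (List.suffix_cons _ _)) (HasCtx.step hC hst) hfac hms with
        ⟨y, hy, k₁, k₂, s₂, s₁, e1, e2, e3, e4, e5⟩ | h2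
      · left
        refine ⟨y, hy, x0 :: k₁, k₂, s₂, s₁, by rw [e1]; rfl, e2, e3, ?_, e5⟩
        have := hst.trans e4
        simpa using this
      · exact Or.inr h2
  | nonterm r hr hS α' u0 w0 h1 h2 ih1 ih2 =>
    intro k t s hW hF hC hfac hms
    rcases split_hash hW with ⟨u', k'', rfl, rfl, h3⟩ | ⟨Z0, W0, h3, h4, rfl⟩
    · -- the separator is in the second part
      have hst : Step (CG g) (Symbol.nonterminal r.input :: α') u' [] α' := by
        intro U V hUV
        rw [mem_CG] at hUV ⊢
        rw [List.map_append, List.append_assoc]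
        exact D.nonterm r hr hS _ _ _ h1 hUV
      rcases ih2 k'' t s h3 (forms_suffix hF (List.suffix_cons _ _)) (HasCtx.step hC hst) hfac hms
        with ⟨y, hy, k₁, k₂, s₂, s₁, e1, e2, e3, e4, e5⟩ | h5
      · left
        refine ⟨y, hy, u' ++ k₁, k₂, s₂, s₁, by rw [e1, List.append_assoc], e2, e3, ?_, e5⟩
        have := hst.trans e4
        simpa using this
      · exact Or.inr h5
    · -- the separator is in the first part
      have h5 : t ++ s = W0.reverse ++ Z0.reverse := by
        rw [← List.reverse_append, ← h3, List.reverse_reverse]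
      have hZ : (k, Z0.reverse) ∈ CG g (r.output : Fm g) := by
        rw [mem_CG, List.reverse_reverse, ← h4]
        exact h1
      have hst : Step (CG g) (Symbol.nonterminal r.input :: α') [] W0.reverse r.output := by
        intro U V hUV
        rw [mem_CG] at hUV ⊢
        have := D.nonterm r hr hS _ _ _ hUV h2
        simpa using this
      rw [List.append_eq_append_iff] at h5
      rcases h5 with ⟨s', e1, e2⟩ | ⟨t', e1, e2⟩
      · -- W0.reverse = t ++ s', s = s' ++ Z
        by_cases hs' : s'.length < m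
        · left
          refine ⟨r.output, forms_output hr, [], k, s', Z0.reverse, rfl, e2, hs', ?_, hZ⟩
          rw [← e1]
          exact hst
        · rw [not_lt] at hs'
          right
          obtain ⟨a, v, hav⟩ := hC
          obtain ⟨t₁, t₂, s₂, s₁, f1, f2, f3, f4, f5⟩ := window (φ := φ) (h := h) hm h2 W0 rfl
            (forms_suffix hF (List.suffix_cons _ _))
            ⟨pr φ (a ++ k), pr φ v, pr φ Z0.reverse, fun w hw => by
              have h6 : (k, w.reverse ++ Z0.reverse) ∈ CG g (Symbol.nonterminal r.input :: α') := by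
                rw [mem_CG]
                have := D.nonterm r hr hS _ _ _ h1 hw
                rw [h4] at this
                simpa using this
              have h7 := pr_eq hL (hav _ _ h6)
              rw [h7]
              simp [mul_assoc]⟩ t s' e1 hs' (fun p' q' r' e hq' =>
              hfac p' q' (r' ++ Z0.reverse) (by rw [e2, e]; simp) hq')
          exact ⟨t₁, t₂, s₂, s₁ ++ Z0.reverse, f1, by rw [e2, f2, List.append_assoc], f3, f4, f5⟩
      · -- t = W0.reverse ++ t', Z = t' ++ s
        have h6 : u0 = k.map some ++ none :: (t' ++ s).reverse.map some := by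
          rw [h4, ← e2, List.reverse_reverse]
        rcases ih1 k t' s h6 (forms_output hr) (HasCtx.step hC hst) hfac hms with
          ⟨y, hy, k₁, k₂, s₂, s₁, f1, f2, f3, f4, f5⟩ | ⟨t₁, t₂, s₂, s₁, f1, f2, f3, f4, f5⟩
        · left
          refine ⟨y, hy, k₁, k₂, s₂, s₁, f1, f2, f3, ?_, f5⟩
          have := hst.trans f4
          rw [e1]
          simpa using this
        · right
          exact ⟨W0.reverse ++ t₁, t₂, s₂, s₁, by rw [e1, f1, List.append_assoc], f2, f3, f4, f5⟩

end

theorem gw : S_GW := by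
  intro M _ A φ g hL α hα hC k t s h m hk hfac hm hms
  exact main_ind hL hm hk k t s rfl hα hC hfac hms

end Pool.Agent.W179.WP399
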